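import Pool.Agent.V5helper99.DC.Defs

/-!
# Project DC, job J6: the dimension of the face of a set of directions
-/

set_option autoImplicit false

namespace DC99

open Module

/-- the unit vector -/
private noncomputable def J6_e {n : ℕ} (j : Fin n) : E n := EuclideanSpace.single j (1 : ℝ)

private lemma J6_pt {n : ℕ} (A : Finset (Fin n)) (i : Fin n) :
    (pt A) i = if i ∈ A then (-1 : ℝ) else 1 := rfl

private lemma J6_e_apply {n : ℕ} (j i : Fin n) : (J6_e j) i = if i = j then (1 : ℝ) else 0 := by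
  rw [J6_e, PiLp.single_apply]

private lemma J6_mem {n : ℕ} (A : Finset (Fin n)) (j i : Fin n) :
    i ∈ symmDiff A {j} ↔ (i ≠ j ∧ i ∈ A) ∨ (i = j ∧ i ∉ A) := by
  rw [Finset.mem_symmDiff, Finset.mem_singleton]
  tauto

private lemma J6_flip {n : ℕ} (A : Finset (Fin n)) (j : Fin n) :
    pt (symmDiff A {j}) = pt A - (2 * (pt A) j) • J6_e j := by
  ext i
  rw [PiLp.sub_apply, PiLp.smul_apply, J6_e_apply, J6_pt, J6_pt, J6_pt, smul_eq_mul]
  by_cases hij : i = j
  · subst hij
    by_cases hi : i ∈ A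
    · rw [if_neg (by rw [J6_mem]; tauto), if_pos hi, if_pos rfl]
      norm_num
    · rw [if_pos (by rw [J6_mem]; tauto), if_neg hi, if_pos rfl]
      norm_num
  · have h : i ∈ symmDiff A {j} ↔ i ∈ A := by rw [J6_mem]; tauto
    rw [if_neg hij, mul_zero, sub_zero]
    by_cases hi : i ∈ A
    · rw [if_pos hi, if_pos (h.2 hi)]
    · rw [if_neg hi, if_neg (fun h' => hi (h.1 h'))]

private lemma J6_par {n : ℕ} (A : Finset (Fin n)) (j : Fin n) :
    Even (symmDiff A {j}).card ↔ ¬ Even A.card := by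
  by_cases hj : j ∈ A
  · have h : symmDiff A {j} = A.erase j := by
      ext i
      rw [J6_mem, Finset.mem_erase]
      constructor
      · rintro (h | ⟨rfl, h⟩)
        · exact h
        · exact absurd hj h
      · intro h
        exact Or.inl h
    rw [h, Finset.card_erase_of_mem hj]
    have hc : 0 < A.card := Finset.card_pos.2 ⟨j, hj⟩
    obtain ⟨m, hm⟩ : ∃ m, A.card = m + 1 := ⟨A.card - 1, by omega⟩
    rw [hm, Nat.add_sub_cancel, Nat.even_add_one, not_not]
  · have h : symmDiff A {j} = insert j A := by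
      ext i
      rw [J6_mem, Finset.mem_insert]
      constructor
      · rintro (h | h)
        · exact Or.inr h.2
        · exact Or.inl h.1
      · rintro (rfl | h)
        · exact Or.inr ⟨rfl, hj⟩
        · exact Or.inl ⟨fun h' => hj (h' ▸ h), h⟩
    rw [h, Finset.card_insert_of_notMem hj, Nat.even_add_one]

private lemma J6_sub {n : ℕ} {A W S : Finset (Fin n)} {j : Fin n} (hj : j ∈ S)
    (h : symmDiff A W ⊆ S) : symmDiff (symmDiff A {j}) W ⊆ S := by
  intro i hi
  by_cases hij : i = j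
  · rw [hij]; exact hj
  · apply h
    rw [Finset.mem_symmDiff] at hi ⊢
    rw [J6_mem] at hi
    tauto

private lemma J6_two {n : ℕ} {A W S : Finset (Fin n)} {j k : Fin n} (hj : j ∈ S) (hk : k ∈ S)
    (h : A ∈ ST W S) : symmDiff (symmDiff A {j}) {k} ∈ ST W S := by
  refine ⟨?_, J6_sub hk (J6_sub hj h.2)⟩
  rw [J6_par, J6_par, not_not]
  exact h.1

private lemma J6_ex {n : ℕ} {W S : Finset (Fin n)} {j : Fin n} (hj : j ∈ S) :
    ∃ A, A ∈ ST W S := by
  by_cases hW : Even W.card
  · exact ⟨W, hW, by rw [symmDiff_self]; exact Finset.empty_subset _⟩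
  · refine ⟨symmDiff W {j}, (J6_par W j).2 hW, J6_sub hj ?_⟩
    rw [symmDiff_self]
    exact Finset.empty_subset _

private lemma J6_pm {n : ℕ} (A : Finset (Fin n)) (j : Fin n) : (pt A) j * (pt A) j = 1 := by
  rw [J6_pt]
  split_ifs <;> norm_num

private lemma J6_flip_ne {n : ℕ} (A : Finset (Fin n)) {j i : Fin n} (h : i ≠ j) :
    (pt (symmDiff A {j})) i = (pt A) i := by
  rw [J6_flip, PiLp.sub_apply, PiLp.smul_apply, J6_e_apply, if_neg h, smul_zero, sub_zero]

private lemma J6_flip_eq {n : ℕ} (A : Finset (Fin n)) (j : Fin n) :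
    (pt (symmDiff A {j})) j = - (pt A) j := by
  rw [J6_flip, PiLp.sub_apply, PiLp.smul_apply, J6_e_apply, if_pos rfl, smul_eq_mul]
  ring

private lemma J6_in {n : ℕ} {W S : Finset (Fin n)} {j k l : Fin n} (hj : j ∈ S) (hk : k ∈ S)
    (hl : l ∈ S) (hjk : j ≠ k) (hjl : j ≠ l) (hkl : k ≠ l) :
    J6_e j ∈ vectorSpan ℝ (pt '' ST W S) := by
  obtain ⟨A, hA⟩ := J6_ex (W := W) hj
  have h1 : pt A - pt (symmDiff (symmDiff A {j}) {k}) ∈ vectorSpan ℝ (pt '' ST W S) :=
    vsub_mem_vectorSpan ℝ ⟨A, hA, rfl⟩ ⟨_, J6_two hj hk hA, rfl⟩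
  set C := symmDiff (symmDiff A {k}) {l} with hC
  have hC' : C ∈ ST W S := J6_two hk hl hA
  have h2 : pt C - pt (symmDiff (symmDiff C {j}) {k}) ∈ vectorSpan ℝ (pt '' ST W S) :=
    vsub_mem_vectorSpan ℝ ⟨C, hC', rfl⟩ ⟨_, J6_two hj hk hC', rfl⟩
  have c1 : (pt C) j = (pt A) j := by
    rw [hC, J6_flip_ne _ hjl, J6_flip_ne _ hjk]
  have c2 : (pt C) k = - (pt A) k := by
    rw [hC, J6_flip_ne _ hkl, J6_flip_eq]
  have e1 : pt A - pt (symmDiff (symmDiff A {j}) {k}) =
      (2 * (pt A) j) • J6_e j + (2 * (pt A) k) • J6_e k := by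
    rw [J6_flip (symmDiff A {j}) k, J6_flip_ne _ hjk.symm, J6_flip A j]
    abel
  have e2 : pt C - pt (symmDiff (symmDiff C {j}) {k}) =
      (2 * (pt A) j) • J6_e j - (2 * (pt A) k) • J6_e k := by
    rw [J6_flip (symmDiff C {j}) k, J6_flip_ne _ hjk.symm, J6_flip C j, c1, c2, mul_neg, neg_smul]
    abel
  rw [e1] at h1
  rw [e2] at h2
  have h3 := Submodule.smul_mem _ (4⁻¹ * (pt A) j) (Submodule.add_mem _ h1 h2)
  have e3 : (4⁻¹ * (pt A) j) • ((2 * (pt A) j) • J6_e j + (2 * (pt A) k) • J6_e k +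
      ((2 * (pt A) j) • J6_e j - (2 * (pt A) k) • J6_e k)) = J6_e j := by
    have : (2 * (pt A) j) • J6_e j + (2 * (pt A) k) • J6_e k +
      ((2 * (pt A) j) • J6_e j - (2 * (pt A) k) • J6_e k) = (4 * (pt A) j) • J6_e j := by
      have h4 : (4 * (pt A) j) = 2 * (pt A) j + 2 * (pt A) j := by ring
      rw [h4, add_smul]
      abel
    rw [this, smul_smul]
    have h5 : 4⁻¹ * (pt A) j * (4 * (pt A) j) = 1 := by
      have := J6_pm A j
      calc 4⁻¹ * (pt A) j * (4 * (pt A) j) = (pt A) j * (pt A) j := by ring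
        _ = 1 := this
    rw [h5, one_smul]
  rwa [e3] at h3

private lemma J6_third {n : ℕ} {S : Finset (Fin n)} (hS : 3 ≤ S.card) {j : Fin n} (hj : j ∈ S) :
    ∃ k ∈ S, ∃ l ∈ S, j ≠ k ∧ j ≠ l ∧ k ≠ l := by
  have h1 : 1 < (S.erase j).card := by
    rw [Finset.card_erase_of_mem hj]
    omega
  obtain ⟨k, hk, l, hl, hkl⟩ := Finset.one_lt_card.1 h1
  rw [Finset.mem_erase] at hk hl
  exact ⟨k, hk.2, l, hl.2, hk.1.symm, hl.1.symm, hkl⟩

theorem t_J6 {n : ℕ} (W S : Finset (Fin n)) (hS : 3 ≤ S.card) :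
    finrank ℝ (vectorSpan ℝ (hull (ST W S))) = S.card := by
  have h0 : vectorSpan ℝ (hull (ST W S)) = vectorSpan ℝ (pt '' ST W S) := by
    rw [← direction_affineSpan, ← direction_affineSpan, hull, affineSpan_convexHull]
  have h1 : vectorSpan ℝ (pt '' ST W S) =
      Submodule.span ℝ (Set.range fun j : S => (J6_e (j : Fin n) : E n)) := by
    apply le_antisymm
    · rw [vectorSpan, Submodule.span_le]
      rintro _ ⟨_, ⟨A, hA, rfl⟩, _, ⟨B, hB, rfl⟩, rfl⟩
      have h2 : pt A -ᵥ pt B = ∑ j : S, ((pt A) (j : Fin n) - (pt B) (j : Fin n)) • J6_e (j : Fin n) := by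
        ext i
        rw [vsub_eq_sub, PiLp.sub_apply]
        have h3 : (∑ j : S, ((pt A) (j : Fin n) - (pt B) (j : Fin n)) • J6_e (j : Fin n)) i =
            ∑ j : S, (((pt A) (j : Fin n) - (pt B) (j : Fin n)) • J6_e (j : Fin n)) i := by
          rw [WithLp.ofLp_sum, Finset.sum_apply]
        rw [h3]
        simp only [PiLp.smul_apply, J6_e_apply, smul_eq_mul, mul_ite, mul_one, mul_zero]
        rw [Finset.sum_coe_sort S fun j => if i = j then (pt A) j - (pt B) j else 0,
          Finset.sum_ite_eq]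
        split_ifs with hi
        · rfl
        · have ha : i ∈ A ↔ i ∈ W := by
            by_contra hc
            apply hi
            apply hA.2
            rw [Finset.mem_symmDiff]
            tauto
          have hb : i ∈ B ↔ i ∈ W := by
            by_contra hc
            apply hi
            apply hB.2
            rw [Finset.mem_symmDiff]
            tauto
          rw [J6_pt, J6_pt]
          by_cases hw : i ∈ W
          · rw [if_pos (ha.2 hw), if_pos (hb.2 hw), sub_self]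
          · rw [if_neg (fun h => hw (ha.1 h)), if_neg (fun h => hw (hb.1 h)), sub_self]
      change pt A -ᵥ pt B ∈ _
      rw [h2]
      exact Submodule.sum_mem _ fun j _ => Submodule.smul_mem _ _ (Submodule.subset_span ⟨j, rfl⟩)
    · rw [Submodule.span_le]
      rintro _ ⟨j, rfl⟩
      obtain ⟨k, hk, l, hl, h1, h2, h3⟩ := J6_third hS j.2
      exact J6_in j.2 hk hl h1 h2 h3
  have h2 : LinearIndependent ℝ fun j : S => (J6_e (j : Fin n) : E n) := by
    have h3 := ((EuclideanSpace.basisFun (Fin n) ℝ).toBasis.linearIndependent).comp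
      (Subtype.val : S → Fin n) Subtype.val_injective
    have h4 : (fun j : S => (J6_e (j : Fin n) : E n)) =
        (EuclideanSpace.basisFun (Fin n) ℝ).toBasis ∘ (Subtype.val : S → Fin n) := by
      funext j
      rw [Function.comp_apply, OrthonormalBasis.coe_toBasis, EuclideanSpace.basisFun_apply]
      rfl
    rw [h4]
    exact h3
  rw [h0, h1, finrank_span_eq_card h2, Fintype.card_coe]

end DC99
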